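import Mathlib

/-!
Squad PLG (MP_1fc801_co): from the complex plane to `EuclideanSpace ℝ (Fin 2)`.
-/

set_option autoImplicit false

namespace Pool.Agent.PLG.H67

open Module

/-- the plane -/
abbrev Pl := EuclideanSpace ℝ (Fin 2)

/-- the isometry of the complex plane and the plane -/
noncomputable def iso : ℂ ≃ₗᵢ[ℝ] Pl := Complex.orthonormalBasisOneI.repr

/-- the copy of a set in the complex plane -/
noncomputable def cp (P : Finset Pl) : Finset ℂ := P.map iso.symm.toEquiv.toEmbedding

theorem mem_cp {P : Finset Pl} {z : ℂ} : z ∈ cp P ↔ iso z ∈ P := by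
  unfold cp
  rw [Finset.mem_map]
  constructor
  · rintro ⟨p, hp, rfl⟩
    have : iso (iso.symm p) = p := iso.apply_symm_apply p
    exact this.symm ▸ hp
  · intro h
    exact ⟨iso z, h, iso.symm_apply_apply z⟩

theorem card_cp (P : Finset Pl) : (cp P).card = P.card := Finset.card_map _

/-- the set of the distances between different points -/
def dset (P : Finset Pl) : Set ℝ := {d : ℝ | ∃ p ∈ P, ∃ q ∈ P, p ≠ q ∧ d = dist p q}

theorem finite_dset (P : Finset Pl) : (dset P).Finite := by
  refine ((P ×ˢ P).image fun p => dist p.1 p.2).finite_toSet.subset ?_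
  rintro d ⟨p, hp, q, hq, -, rfl⟩
  exact Finset.mem_coe.2 (Finset.mem_image.2 ⟨(p, q), Finset.mem_product.2 ⟨hp, hq⟩, rfl⟩)

theorem nd_le (P : Finset Pl) :
    ((cp P ×ˢ cp P).image fun p => ‖p.1 - p.2‖).card ≤ (dset P).ncard + 1 := by
  classical
  have h : ((cp P ×ˢ cp P).image fun p => ‖p.1 - p.2‖) ⊆
      insert 0 (finite_dset P).toFinset := by
    intro d hd
    obtain ⟨⟨p, q⟩, hpq, rfl⟩ := Finset.mem_image.1 hd
    obtain ⟨hp, hq⟩ := Finset.mem_product.1 hpq
    rw [Finset.mem_insert, Set.Finite.mem_toFinset]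
    by_cases h : p = q
    · left
      simp [h]
    · right
      refine ⟨iso p, mem_cp.1 hp, iso q, mem_cp.1 hq, fun h1 => h (iso.injective h1), ?_⟩
      rw [iso.dist_map, dist_eq_norm]
  refine (Finset.card_le_card h).trans ((Finset.card_insert_le _ _).trans ?_)
  rw [Set.ncard_eq_toFinset_card _ (finite_dset P)]

open Classical in
/-- a rich line of the copy gives a rich line -/
theorem line_of (P : Finset Pl) (z p : ℂ) (hz : z ≠ 0) :
    ∃ L : AffineSubspace ℝ Pl, finrank ℝ L.direction = 1 ∧
      (((cp P).filter (fun q => ∃ r : ℝ, q - p = r * z)).card : ℝ) ≤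
        (((P : Set Pl) ∩ (L : Set Pl)).ncard : ℝ) := by
  refine ⟨AffineSubspace.mk' (iso p) (Submodule.span ℝ {iso z}), ?_, ?_⟩
  · rw [AffineSubspace.direction_mk']
    refine finrank_span_singleton fun h => hz ?_
    exact iso.map_eq_zero_iff.1 h
  · have h1 : (((cp P).filter (fun q => ∃ r : ℝ, q - p = r * z)).image iso : Set Pl) ⊆
        (P : Set Pl) ∩ (AffineSubspace.mk' (iso p) (Submodule.span ℝ {iso z}) : Set Pl) := by
      intro y hy
      obtain ⟨q, hq, rfl⟩ := Finset.mem_image.1 (Finset.mem_coe.1 hy)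
      obtain ⟨hq1, r, hr⟩ := Finset.mem_filter.1 hq
      refine ⟨mem_cp.1 hq1, ?_⟩
      have h2 : iso q -ᵥ iso p ∈ Submodule.span ℝ {iso z} := by
        rw [vsub_eq_sub, ← map_sub, hr, Submodule.mem_span_singleton]
        refine ⟨r, ?_⟩
        rw [← map_smul, Complex.real_smul]
      exact (AffineSubspace.mem_mk').2 h2
    have h2 : (((P : Set Pl) ∩ (AffineSubspace.mk' (iso p)
        (Submodule.span ℝ {iso z}) : Set Pl))).Finite := P.finite_toSet.subset Set.inter_subset_left
    have h3 := Set.ncard_le_ncard h1 h2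
    rw [Set.ncard_coe_finset, Finset.card_image_of_injective _ iso.injective] at h3
    exact_mod_cast h3

end Pool.Agent.PLG.H67
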