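import Pool.Agent.PLG.Stmts

set_option autoImplicit false

namespace Pool.Agent.PLG.H67

open Module

theorem prf : PrfStmt := by
  intro E _ _ f G π t j hG hj hπ hker him
  classical
  have hV : Dsc f (lp G t) := hG.lp t
  obtain ⟨y₀, hy₀, hy₀0, hy₀2, hy₀π⟩ := hker
  obtain ⟨y₁, hy₁, hy₁1, hy₁π⟩ := him
  have hre : ∀ x ∈ lp G t, x ≠ 0 → x.re ≠ 0 := fun x hx h0 h => h0 (eq_zero_of_re hx.2 h)
  obtain ⟨B, hB⟩ : ∃ B, B = bl f (lp G t) 1 := ⟨_, rfl⟩
  obtain ⟨Kr, hKr⟩ : ∃ Kr, Kr = (bl f (lp G t) 2).filter fun x => π x = 0 := ⟨_, rfl⟩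
  obtain ⟨Z, hZ⟩ : ∃ Z, Z = (B.image π).filter fun z => 0 < z.re := ⟨_, rfl⟩
  obtain ⟨U, hU⟩ : ∃ U, U = Kr.filter fun x => 0 < x.re := ⟨_, rfl⟩
  have memB : ∀ x, x ∈ B ↔ x ∈ lp G t ∧ ‖f x‖ ≤ 1 := fun x => by rw [hB, mem_bl hV]
  have memK : ∀ x, x ∈ Kr ↔ (x ∈ lp G t ∧ ‖f x‖ ≤ 2) ∧ π x = 0 := fun x => by
    rw [hKr, Finset.mem_filter, mem_bl hV]
  have memZ : ∀ z, z ∈ Z ↔ (∃ x ∈ B, π x = z) ∧ 0 < z.re := fun z => by
    rw [hZ, Finset.mem_filter, Finset.mem_image]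
  have memU : ∀ x, x ∈ U ↔ x ∈ Kr ∧ 0 < x.re := fun x => by rw [hU, Finset.mem_filter]
  -- counting by fibres
  have h1 : B.card ≤ Kr.card * (B.image π).card := by
    refine Finset.card_le_mul_card_image B Kr.card fun z hz => ?_
    obtain ⟨b, hb, hbz⟩ := Finset.mem_image.1 hz
    refine Finset.card_le_card_of_injOn (fun x => x - b) ?_ (fun x _ y _ h => sub_left_injective h)
    intro x hx
    obtain ⟨hx1, hx2⟩ := Finset.mem_filter.1 (Finset.mem_coe.1 hx)
    have h3 := (memB x).1 hx1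
    have h4 := (memB b).1 hb
    rw [Finset.mem_coe, memK]
    refine ⟨⟨(lp G t).sub_mem h3.1 h4.1, ?_⟩, ?_⟩
    · rw [map_sub]
      refine (norm_sub_le _ _).trans ?_
      linarith [h3.2, h4.2]
    · rw [map_sub, hx2, hbz, sub_self]
  have h2 : (B.image π).card ≤ 2 * Z.card + 1 := by
    have h3 : B.image π ⊆ insert 0 (Z ∪ Z.image fun z => -z) := by
      intro z hz
      obtain ⟨x, hx, rfl⟩ := Finset.mem_image.1 hz
      have hx' := (memB x).1 hx
      rw [Finset.mem_insert, Finset.mem_union, Finset.mem_image]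
      rcases lt_trichotomy (π x).re 0 with h | h | h
      · refine Or.inr (Or.inr ⟨-π x, ?_, neg_neg _⟩)
        rw [memZ]
        refine ⟨⟨-x, ?_, map_neg π x⟩, ?_⟩
        · rw [memB, map_neg, norm_neg]
          exact ⟨(lp G t).neg_mem hx'.1, hx'.2⟩
        · rw [Complex.neg_re]
          linarith
      · exact Or.inl (eq_zero_of_re (hπ x hx'.1) h)
      · exact Or.inr (Or.inl ((memZ _).2 ⟨⟨x, hx, rfl⟩, h⟩))
    refine (Finset.card_le_card h3).trans ((Finset.card_insert_le _ _).trans ?_)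
    have h4 := Finset.card_union_le Z (Z.image fun z => -z)
    have h5 : (Z.image fun z => -z).card ≤ Z.card := Finset.card_image_le
    omega
  have h3 : Kr.card ≤ 2 * U.card + 1 := by
    have h4 : Kr ⊆ insert 0 (U ∪ U.image fun z => -z) := by
      intro x hx
      have hx' := (memK x).1 hx
      rw [Finset.mem_insert, Finset.mem_union, Finset.mem_image]
      rcases lt_trichotomy x.re 0 with h | h | h
      · refine Or.inr (Or.inr ⟨-x, ?_, neg_neg _⟩)
        rw [memU, memK, map_neg, norm_neg, map_neg, Complex.neg_re]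
        exact ⟨⟨⟨(lp G t).neg_mem hx'.1.1, hx'.1.2⟩, by rw [hx'.2, neg_zero]⟩, by linarith⟩
      · exact Or.inl (eq_zero_of_re hx'.1.1.2 h)
      · exact Or.inr (Or.inl ((memU _).2 ⟨hx, h⟩))
    refine (Finset.card_le_card h4).trans ((Finset.card_insert_le _ _).trans ?_)
    have h5 := Finset.card_union_le U (U.image fun z => -z)
    have h6 : (U.image fun z => -z).card ≤ U.card := Finset.card_image_le
    omega
  have hUpos : 1 ≤ U.card := by
    rw [Nat.one_le_iff_ne_zero, ← Nat.pos_iff_ne_zero, Finset.card_pos]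
    rcases lt_or_gt_of_ne (hre y₀ hy₀ hy₀0) with h | h
    · refine ⟨-y₀, ?_⟩
      rw [memU, memK, map_neg, norm_neg, map_neg, Complex.neg_re]
      exact ⟨⟨⟨(lp G t).neg_mem hy₀, hy₀2⟩, by rw [hy₀π, neg_zero]⟩, by linarith⟩
    · exact ⟨y₀, (memU _).2 ⟨(memK _).2 ⟨⟨hy₀, hy₀2⟩, hy₀π⟩, h⟩⟩
  have hZpos : 1 ≤ Z.card := by
    rw [Nat.one_le_iff_ne_zero, ← Nat.pos_iff_ne_zero, Finset.card_pos]
    have h0 : (π y₁).re ≠ 0 := fun h => hy₁π (eq_zero_of_re (hπ y₁ hy₁) h)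
    rcases lt_or_gt_of_ne h0 with h | h
    · refine ⟨π (-y₁), (memZ _).2 ⟨⟨-y₁, ?_, rfl⟩, ?_⟩⟩
      · rw [memB, map_neg, norm_neg]
        exact ⟨(lp G t).neg_mem hy₁, hy₁1⟩
      · rw [map_neg, Complex.neg_re]
        linarith
    · exact ⟨π y₁, (memZ _).2 ⟨⟨y₁, (memB _).2 ⟨hy₁, hy₁1⟩, rfl⟩, h⟩⟩
  -- a section of `π` over `Z`
  have hsec : ∀ z : ℂ, ∃ y : ℂ, z ∈ Z → y ∈ B ∧ π y = z := by
    intro z
    by_cases hz : z ∈ Z
    · obtain ⟨⟨x, hx, hxz⟩, -⟩ := (memZ z).1 hz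
      exact ⟨x, fun _ => ⟨hx, hxz⟩⟩
    · exact ⟨0, fun h => absurd h hz⟩
  choose g hg using hsec
  obtain ⟨Zp, hZp⟩ : ∃ Zp, Zp = Z.filter fun z => 0 < (g z).re := ⟨_, rfl⟩
  obtain ⟨Zm, hZm⟩ : ∃ Zm, Zm = Z.filter fun z => ¬ 0 < (g z).re := ⟨_, rfl⟩
  have hZcard : Zp.card + Zm.card = Z.card := by
    rw [hZp, hZm]
    exact Finset.card_filter_add_card_filter_not _
  have hginj : Set.InjOn g Z := fun x hx y hy h => by
    rw [← (hg x hx).2, ← (hg y hy).2, h]
  have main : ∀ (σ : ℝ) (Y : Finset ℂ), (σ = 1 ∨ σ = -1) → Z.card ≤ 2 * Y.card →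
      (∀ y ∈ Y, y ∈ lp G t ∧ ‖f y‖ ≤ 1 ∧ 0 < y.re ∧ 0 < σ * (π y).re) → Set.InjOn π Y →
      Fib f G π t j := by
    intro σ Y hσ hZY hY hinj
    refine ⟨σ, hσ, Y, U, ?_, hinj, ?_, ?_⟩
    · intro y hy
      obtain ⟨a1, a2, a3, a4⟩ := hY y hy
      exact ⟨a1, a2, a3, hπ y a1, a4⟩
    · intro u hu
      obtain ⟨a1, a2⟩ := (memU u).1 hu
      obtain ⟨a3, a4⟩ := (memK u).1 a1
      exact ⟨a3.1, a3.2, a2, a4⟩
    · have h5 : B.card ≤ 18 * (Y.card * U.card) := by
        calc B.card ≤ Kr.card * (B.image π).card := h1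
          _ ≤ (3 * U.card) * (3 * Z.card) := Nat.mul_le_mul (by omega) (by omega)
          _ ≤ (3 * U.card) * (3 * (2 * Y.card)) := by gcongr
          _ = 18 * (Y.card * U.card) := by ring
      have h6 : j ≤ B.card := by rw [hB]; exact hj
      refine h6.trans ?_
      exact_mod_cast h5
  by_cases hc : Zm.card ≤ Zp.card
  · refine main 1 (Zp.image g) (Or.inl rfl) ?_ ?_ ?_
    · rw [Finset.card_image_of_injOn (hginj.mono fun z hz => by
        rw [hZp] at hz
        exact Finset.mem_of_mem_filter z (Finset.mem_coe.1 hz))]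
      omega
    · intro y hy
      obtain ⟨z, hz, rfl⟩ := Finset.mem_image.1 hy
      rw [hZp] at hz
      obtain ⟨hz1, hz2⟩ := Finset.mem_filter.1 hz
      obtain ⟨h7, h8⟩ := hg z hz1
      have h9 := (memB _).1 h7
      refine ⟨h9.1, h9.2, hz2, ?_⟩
      rw [h8, one_mul]
      exact ((memZ z).1 hz1).2
    · intro x hx y hy h
      obtain ⟨z, hz, rfl⟩ := Finset.mem_image.1 (Finset.mem_coe.1 hx)
      obtain ⟨z', hz', rfl⟩ := Finset.mem_image.1 (Finset.mem_coe.1 hy)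
      rw [hZp] at hz hz'
      have e1 := (hg z (Finset.mem_of_mem_filter z hz)).2
      have e2 := (hg z' (Finset.mem_of_mem_filter z' hz')).2
      have h' : π (g z) = π (g z') := h
      rw [e1, e2] at h'
      rw [h']
  · refine main (-1) (Zm.image fun z => -g z) (Or.inr rfl) ?_ ?_ ?_
    · rw [Finset.card_image_of_injOn (fun x hx y hy h => by
        rw [hZm] at hx hy
        exact hginj (Finset.mem_of_mem_filter x (Finset.mem_coe.1 hx))
          (Finset.mem_of_mem_filter y (Finset.mem_coe.1 hy)) (neg_injective h))]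
      omega
    · intro y hy
      obtain ⟨z, hz, rfl⟩ := Finset.mem_image.1 hy
      rw [hZm] at hz
      obtain ⟨hz1, hz2⟩ := Finset.mem_filter.1 hz
      obtain ⟨h7, h8⟩ := hg z hz1
      have h9 := (memB _).1 h7
      have hzre := ((memZ z).1 hz1).2
      have h10 : g z ≠ 0 := by
        intro h
        rw [h, map_zero] at h8
        rw [← h8] at hzre
        simp at hzre
      have h11 := hre _ h9.1 h10
      refine ⟨(lp G t).neg_mem h9.1, by rw [map_neg, norm_neg]; exact h9.2, ?_, ?_⟩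
      · rw [Complex.neg_re]
        rcases lt_or_gt_of_ne h11 with h12 | h12
        · linarith
        · exact absurd h12 hz2
      · rw [map_neg, h8, Complex.neg_re]
        linarith
    · intro x hx y hy h
      obtain ⟨z, hz, rfl⟩ := Finset.mem_image.1 (Finset.mem_coe.1 hx)
      obtain ⟨z', hz', rfl⟩ := Finset.mem_image.1 (Finset.mem_coe.1 hy)
      rw [hZm] at hz hz'
      have e1 := (hg z (Finset.mem_of_mem_filter z hz)).2
      have e2 := (hg z' (Finset.mem_of_mem_filter z' hz')).2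
      have h' : π (-g z) = π (-g z') := h
      rw [map_neg, map_neg, e1, e2, neg_inj] at h'
      rw [h']

end Pool.Agent.PLG.H67
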