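import Pool.Agent.PLG.Stmts
set_option autoImplicit false
namespace Pool.Agent.PLG.H67

theorem sol : SolStmt := by
  intro n t S ht hS i i' hi hi' x hx y hy x' hx' y' hy' he
  have hmono : ∀ a b : ℕ, a ≤ b → b ≤ n → t a ≤ t b := by
    intro a b hab
    induction b, hab using Nat.le_induction with
    | base => intro _; exact le_refl _
    | succ b _ ih => intro hb; exact (ih (by omega)).trans (ht b (by omega)).le
  have low : ∀ i < n, ∀ x ∈ S i, ∀ y ∈ S (i+1), t i * (x+y).re < (x+y).im ∧
      (x+y).im < t (i+1) * (x+y).re := by
    intro i hi x hx y hy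
    obtain ⟨h1, h2⟩ := hS i (by omega) x hx
    obtain ⟨h3, h4⟩ := hS (i+1) (by omega) y hy
    have h5 := ht i hi
    rw [Complex.add_re, Complex.add_im, h1, h3]
    constructor <;> nlinarith
  have key : i = i' := by
    rcases lt_trichotomy i i' with h | h | h
    · exfalso
      have h1 := (low i hi x hx y hy).2
      have h2 := (low i' hi' x' hx' y' hy').1
      have h3 := hmono (i+1) i' (by omega) (by omega)
      rw [he] at h1
      have h4 : 0 < (x'+y').re := by
        rw [Complex.add_re]
        exact add_pos (hS i' (by omega) x' hx').2 (hS (i'+1) (by omega) y' hy').2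
      nlinarith
    · exact h
    · exfalso
      have h1 := (low i' hi' x' hx' y' hy').2
      have h2 := (low i hi x hx y hy).1
      have h3 := hmono (i'+1) i (by omega) (by omega)
      rw [he] at h2
      have h4 : 0 < (x'+y').re := by
        rw [Complex.add_re]
        exact add_pos (hS i' (by omega) x' hx').2 (hS (i'+1) (by omega) y' hy').2
      nlinarith
  subst key
  have h1 : x - x' = y' - y := by linear_combination he
  have h2 : x - x' = 0 := by
    apply eq_zero_of_slopes (ht i hi).ne
    · rw [Complex.sub_im, Complex.sub_re, (hS i (by omega) x hx).1, (hS i (by omega) x' hx').1]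
      ring
    · rw [h1, Complex.sub_im, Complex.sub_re, (hS (i+1) (by omega) y hy).1,
        (hS (i+1) (by omega) y' hy').1]
      ring
  refine ⟨rfl, sub_eq_zero.1 h2, ?_⟩
  rw [h2] at h1
  exact (sub_eq_zero.1 h1.symm).symm

end Pool.Agent.PLG.H67
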