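import Pool.Agent.Helper67_PLG.PKV
import Pool.Agent.Helper74_PLG.COV
import Pool.Agent.Helper23_PLG.SEP
import Pool.Agent.Helper75_PLG.RNK
import Pool.Agent.Helper46_PLG.GRO
import Pool.Agent.Helper67_PLG.SOL
import Pool.Agent.Helper7_PLG.SLC
import Pool.Agent.Helper95_PLG.TRA
import Pool.Agent.Helper26_PLG.MUL
import Pool.Agent.Helper86_PLG.WRD
import Pool.Agent.Helper7_PLG.GEN
import Pool.Agent.Helper13_PLG.GRF
import Pool.Agent.Helper90_PLG.ALG
import Pool.Agent.Helper67_PLG.PRA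
import Pool.Agent.Helper67_PLG.PRF
import Pool.Agent.Helper13_PLG.PRC
import Pool.Agent.Helper59_PLG.BLA
import Pool.Agent.Helper37_PLG.PRO
import Pool.Agent.Helper70_PLG.POL
import Pool.Agent.Helper50_PLG.RTS
import Pool.Agent.Helper37_PLG.BCK
import Pool.Agent.Helper39_PLG.FNL
import Pool.Agent.Helper81_PLG.TPL
import Pool.Agent.Helper36_PLG.DIM
import Pool.Agent.Helper81_PLG.BLF
import Pool.Agent.Helper19_PLG.CST
import Pool.Agent.Helper38_PLG.THK
import Pool.Agent.Helper16_PLG.THN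
import Pool.Agent.Helper39_PLG.STR
import Pool.Agent.Helper2_PLG.ENG
import Pool.Agent.Helper92_PLG.PRP
import Pool.Agent.Helper3_PLG.CLS
import Pool.Agent.Helper25_PLG.PAR
import Pool.Agent.Helper85_PLG.ROT
import Pool.Agent.Helper66_PLG.MA1
import Pool.Agent.Helper45_PLG.MA2
import Pool.Agent.Helper82_PLG.CVX
import Pool.Agent.Helper94_PLG.BOX

/-!
Squad PLG (MP_1fc801_co): assembly.
-/

set_option autoImplicit false

namespace Pool.Agent.PLG.H67

theorem Pkv : PkvStmt := pkv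
theorem Cov : CovStmt := H74.cov Pkv
theorem Sep : SepStmt := H23.sep Pkv
theorem Gro : GroStmt := H46.gro H75.rnk
theorem Sol : SolStmt := sol
theorem Slc : SlcStmt := H7.slc Sol
theorem Tra : TraStmt := H95.tra
theorem Mul : MulStmt := H26.mul Tra
theorem Algs : AlgStmt := H90.alg H13.grf
theorem Pra : PraStmt := pra H13.grf Algs
theorem Prc : PrcStmt := H13.prc Sol
theorem Pro : ProStmt := H37.pro H59.bla Tra Pra prf Prc
theorem Pol : PolStmt := H70.pol Sep
theorem Bck : BckStmt := H37.bck H59.bla Algs Mul H86.wrd H7.gen Pro Pol Sep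
theorem Fnl : FnlStmt := H39.fnl Pkv
theorem Tpl : TplStmt := H81.tpl H50.rts Fnl
theorem Dim : DimStmt := H36.dim_ Cov Slc Gro
theorem Thk : ThkStmt := H38.thk Cov Dim H81.blf Bck Tpl H19.cst
theorem Thn : ThnStmt := H16.thn Cov
theorem Str : StrStmt := H39.str Thk Thn
theorem Ma1 : Ma1Stmt := H66.ma1 Cov Slc Str H2.eng H92.prp H3.cls H25.par
theorem Ma2 : Ma2Stmt := H45.ma2 Ma1 H85.rot
theorem Cvx : CvxStmt := H82.cvx Ma2
theorem Box : BoxStmt := H94.box Cvx

end Pool.Agent.PLG.H67
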