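import Pool.Agent.Helper67_PLG.All
import Pool.Agent.Helper67_PLG.Conv

/-!
Squad PLG (MP_1fc801_co): the final theorem for independent steps.
-/

set_option autoImplicit false

namespace Pool.Agent.PLG.H67

open Module

/-- bookkeeping: from `nd (cp P) ≤ ε |P|` to the number of positive distances -/
theorem nd_cp_le (P : Finset Pl) (hP : P.Nonempty) {ε : ℝ} (hε : 0 < ε)
    (hD : ((dset P).ncard : ℝ) ≤ ε / 4 * P.card) (hn : 4 / ε ≤ P.card) :
    (nd (cp P) : ℝ) ≤ ε * (cp P).card := by
  have h1 : (nd (cp P) : ℝ) ≤ (dset P).ncard + 1 := by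
    have := nd_le P
    unfold nd
    exact_mod_cast this
  rw [card_cp]
  have h2 : 1 ≤ ε / 4 * P.card := by
    have := mul_le_mul_of_nonneg_left hn (by positivity : (0 : ℝ) ≤ ε / 4)
    rwa [show ε / 4 * (4 / ε) = 1 by field_simp] at this
  nlinarith [h1, h2, hD]

/-- the same for every size of `P` with at least two points: the case of few points is void -/
theorem rich_line (P : Finset Pl) {c : ℝ} {A : ℕ} (h : Rich (cp P) c A) :
    ∃ L : AffineSubspace ℝ Pl, finrank ℝ L.direction = 1 ∧
      c * Real.sqrt P.card ≤ (Real.log P.card) ^ A * (((P : Set Pl) ∩ (L : Set Pl)).ncard : ℝ) := by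
  classical
  obtain ⟨z, hz, p, hp, h1⟩ := h
  obtain ⟨L, hL, h2⟩ := line_of P z p hz
  refine ⟨L, hL, ?_⟩
  rw [card_cp] at h1
  refine h1.trans ?_
  have hlog : 0 ≤ Real.log (P.card : ℝ) := Real.log_natCast_nonneg _
  refine mul_le_mul_of_nonneg_left ?_ (pow_nonneg hlog A)
  have h3 : ((cp P).filter (fun q => q - p ∈ lin z)) =
      (cp P).filter (fun q => ∃ r : ℝ, q - p = r * z) := by
    apply Finset.filter_congr
    intro q _
    exact mem_lin
  rw [h3]
  exact h2
end Pool.Agent.PLG.H67
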