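import Pool.Agent.Helper67_PLG.Fin

/-!
Squad PLG (MP_1fc801_co): the final theorem for independent steps, in the Euclidean plane.
-/

set_option autoImplicit false

namespace Pool.Agent.PLG.H67

open Module

theorem linIndep_of {d : ℕ} (v : Fin d → Pl)
    (hv : ∀ x : Fin d → ℤ, ∑ i, x i • v i = 0 → x = 0) :
    LinearIndependent ℚ (fun i => iso.symm (v i)) := by
  rw [← LinearIndependent.iff_fractionRing ℤ ℚ, Fintype.linearIndependent_iff]
  intro x hx i
  have h : ∑ i, x i • v i = 0 := by
    have h1 : iso.symm (∑ i, x i • v i) = 0 := by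
      rw [map_sum, ← hx]
      exact Finset.sum_congr rfl fun i _ => map_zsmul iso.symm _ _
    exact iso.symm.map_eq_zero_iff.1 h1
  exact congrFun (hv x h) i

/-- MAIN THEOREM for progressions with independent steps. -/
theorem box_final : ∀ (d : ℕ) (K : ℝ), ∃ (ε c : ℝ) (A N₀ : ℕ), 0 < ε ∧ 0 < c ∧
    ∀ (N : Fin d → ℕ) (v : Fin d → Pl) (p₀ : Pl) (P : Finset Pl),
      (∀ x : Fin d → ℤ, ∑ i, x i • v i = 0 → x = 0) → N₀ ≤ P.card →
      (∀ p ∈ P, ∃ x : Fin d → ℤ, (∀ i, |x i| ≤ N i) ∧ p = p₀ + ∑ i, x i • v i) →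
      ((∏ i, (2 * N i + 1) : ℕ) : ℝ) ≤ K * P.card →
      ((dset P).ncard : ℝ) ≤ ε * P.card →
      ∃ L : AffineSubspace ℝ Pl, finrank ℝ L.direction = 1 ∧
        c * Real.sqrt P.card / (Real.log P.card) ^ A ≤
          (((P : Set Pl) ∩ (L : Set Pl)).ncard : ℝ) := by
  intro d K
  obtain ⟨ε, c, A, hε, hc, h⟩ := Box d (3 ^ d * K)
  refine ⟨ε / 4, c, A, max 3 ⌈4 / ε⌉₊, by positivity, hc, ?_⟩
  intro N v p₀ P hv hcard hP hK hD
  have h3 : 3 ≤ P.card := (le_max_left _ _).trans hcard
  have hne : P.Nonempty := Finset.card_pos.1 (by omega)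
  have h4 : 4 / ε ≤ P.card :=
    (Nat.le_ceil _).trans (by exact_mod_cast (le_max_right _ _).trans hcard)
  have hnd := nd_cp_le P hne hε hD h4
  have hne' : (cp P).Nonempty := by
    rw [← Finset.card_pos, card_cp]
    omega
  have hrich : Rich (cp P) c A := by
    refine h (fun i => max (N i) 1) (fun i => iso.symm (v i)) (cp P) (iso.symm p₀)
      (fun i => le_max_right _ _) (linIndep_of v hv) hne' ?_ ?_ hnd
    · intro p hp
      obtain ⟨x, hx, hp'⟩ := hP _ (mem_cp.1 hp)
      refine ⟨x, fun i => (hx i).trans (by exact_mod_cast le_max_left _ _), ?_⟩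
      have h1 : p = iso.symm (iso p) := (iso.symm_apply_apply p).symm
      rw [h1, hp', map_add, map_sum]
      congr 1
      refine Finset.sum_congr rfl fun i _ => ?_
      rw [map_zsmul]
      simp
    · rw [card_cp]
      calc (∏ i, (2 * ((max (N i) 1 : ℕ) : ℝ) + 1)) ≤ ∏ i, (3 * (2 * (N i : ℝ) + 1)) := by
            refine Finset.prod_le_prod (fun i _ => by positivity) fun i _ => ?_
            have h0 : (0 : ℝ) ≤ N i := Nat.cast_nonneg _
            push_cast
            rcases le_total (N i : ℝ) 1 with h1 | h1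
            · rw [max_eq_right h1]
              linarith
            · rw [max_eq_left h1]
              linarith
        _ = 3 ^ d * ((∏ i, (2 * N i + 1) : ℕ) : ℝ) := by
            rw [Finset.prod_mul_distrib, Finset.prod_const, Finset.card_univ, Fintype.card_fin]
            push_cast
            rfl
        _ ≤ 3 ^ d * (K * P.card) := mul_le_mul_of_nonneg_left hK (by positivity)
        _ = 3 ^ d * K * P.card := by ring
  obtain ⟨L, hL, h5⟩ := rich_line P hrich
  refine ⟨L, hL, ?_⟩
  have h6 : 0 < Real.log P.card := Real.log_pos (by exact_mod_cast (by omega : 1 < P.card))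
  rw [div_le_iff₀ (pow_pos h6 A), mul_comm _ (Real.log (P.card : ℝ) ^ A)]
  exact h5

end Pool.Agent.PLG.H67
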