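import Pool.Agent.PLG.Stmts

set_option autoImplicit false

namespace Pool.Agent.PLG.H67

open Module

/-- a functional over a subfield of the reals which separates two reals -/
theorem exists_functional (K : IntermediateField ℚ ℝ) (a b : ℝ) (h : ∀ q ∈ K, q * a ≠ b) :
    ∃ φ : ℝ →ₗ[K] K, φ a = 0 ∧ φ b = 1 := by
  have hb : b ∉ Submodule.span K ({a} : Set ℝ) := by
    intro hb
    obtain ⟨q, hq⟩ := Submodule.mem_span_singleton.1 hb
    exact h q q.2 (by rw [← hq]; rfl)
  obtain ⟨φ, h1, h2⟩ := Submodule.exists_dual_map_eq_bot_of_notMem hb inferInstance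
  refine ⟨(φ b)⁻¹ • φ, ?_, ?_⟩
  · have h3 : φ a ∈ (Submodule.span K ({a} : Set ℝ)).map φ :=
      ⟨a, Submodule.mem_span_singleton_self a, rfl⟩
    rw [h2, Submodule.mem_bot] at h3
    rw [LinearMap.smul_apply, h3, smul_zero]
  · rw [LinearMap.smul_apply, smul_eq_mul, inv_mul_cancel₀ h1]

theorem pra (hGrf : GrfStmt) (hAlg : AlgStmt) : PraStmt := by
  intro M W t₁ t₂ t₃ x y hM hTwo h1 h2 h3 h12 h13 h23 hx hy hx0 hxy
  have hA := hAlg M W t₁ t₂ hTwo h1 h2 h12
  -- `F` is finite dimensional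
  let F := Algebra.adjoin ℚ (Rat4 W t₁ t₂)
  have hxre : x.re ≠ 0 := fun h => hx0 (eq_zero_of_re hx.2 h)
  let ev : F →ₗ[ℚ] M :=
    { toFun := fun q => ⟨((q : ℝ) : ℂ) * x, hA q q.2 t₁ h1 x hx⟩
      map_add' := fun p q => by
        apply Subtype.ext
        simp only [Subalgebra.coe_add, Submodule.coe_add]
        push_cast
        ring
      map_smul' := fun c q => by
        apply Subtype.ext
        simp only [Subalgebra.coe_smul, Submodule.coe_smul, RingHom.id_apply, Rat.smul_def]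
        push_cast
        ring }
  have hev : Function.Injective ev := by
    intro p q h
    have h4 : ((p : ℝ) : ℂ) * x = ((q : ℝ) : ℂ) * x := congrArg Subtype.val h
    have h5 := mul_right_cancel₀ hx0 h4
    exact Subtype.ext (by exact_mod_cast h5)
  have hfin : FiniteDimensional ℚ F := Module.Finite.of_injective ev hev
  have hfield : IsField F := by
    have : Algebra.IsIntegral ℚ F := Algebra.IsIntegral.of_finite ℚ F
    exact isField_of_isIntegral_of_isField' (Field.toIsField ℚ)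
  let K : IntermediateField ℚ ℝ := Subalgebra.toIntermediateField' F hfield
  have hKF : ∀ q : ℝ, q ∈ K ↔ q ∈ F := fun q => Iff.rfl
  obtain ⟨φ, hφa, hφb⟩ := exists_functional K x.re y.re (by
    intro q hq h
    refine hxy q ((hKF q).1 hq) ?_
    have h4 : (((q : ℝ) : ℂ) * x).im = t₁ * (((q : ℝ) : ℂ) * x).re := by
      rw [Complex.re_ofReal_mul, Complex.im_ofReal_mul, hx.2]
      ring
    exact eq_of_re h4 hy.2 (by rw [Complex.re_ofReal_mul]; exact h))
  have hφK : ∀ q ∈ F, ∀ u : ℝ, ((φ (q * u) : K) : ℝ) = q * (φ u : K) := by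
    intro q hq u
    have h4 : φ ((⟨q, (hKF q).2 hq⟩ : K) • u) = (⟨q, (hKF q).2 hq⟩ : K) • φ u := map_smul φ _ _
    have h5 := congrArg (fun k : K => (k : ℝ)) h4
    exact h5
  have h21 : t₂ - t₁ ≠ 0 := sub_ne_zero.2 h12.symm
  have h31 : t₃ - t₁ ≠ 0 := sub_ne_zero.2 h13.symm
  have h32 : t₃ - t₂ ≠ 0 := sub_ne_zero.2 h23.symm
  obtain ⟨r, hr⟩ : ∃ r, r = (t₃ - t₁) / (t₃ - t₂) := ⟨_, rfl⟩
  have hr0 : r ≠ 0 := by rw [hr]; exact div_ne_zero h31 h32
  let π : ℂ →+ ℂ :=
    { toFun := fun m => (((φ ((t₂ * m.re - m.im) / (t₂ - t₁)) : K) : ℝ) : ℂ) * y +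
        ((r * ((φ ((m.im - t₁ * m.re) / (t₂ - t₁) / r) : K) : ℝ) : ℝ) : ℂ) * sh t₂ y
      map_zero' := by simp
      map_add' := fun m n => by
        have e1 : (t₂ * (m + n).re - (m + n).im) / (t₂ - t₁) =
            (t₂ * m.re - m.im) / (t₂ - t₁) + (t₂ * n.re - n.im) / (t₂ - t₁) := by
          rw [Complex.add_re, Complex.add_im]
          ring
        have e2 : ((m + n).im - t₁ * (m + n).re) / (t₂ - t₁) / r =
            (m.im - t₁ * m.re) / (t₂ - t₁) / r + (n.im - t₁ * n.re) / (t₂ - t₁) / r := by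
          rw [Complex.add_re, Complex.add_im]
          ring
        rw [e1, e2, map_add, map_add]
        push_cast
        ring }
  have hπ : ∀ m : ℂ, π m = (((φ ((t₂ * m.re - m.im) / (t₂ - t₁)) : K) : ℝ) : ℂ) * y +
        ((r * ((φ ((m.im - t₁ * m.re) / (t₂ - t₁) / r) : K) : ℝ) : ℝ) : ℂ) * sh t₂ y :=
    fun m => rfl
  -- values on the three kinds of lines
  have hπ1 : ∀ m : ℂ, m.im = t₁ * m.re → π m = (((φ m.re : K) : ℝ) : ℂ) * y := by
    intro m hm
    rw [hπ, hm]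
    have e1 : (t₂ * m.re - t₁ * m.re) / (t₂ - t₁) = m.re := by field_simp
    have e2 : (t₁ * m.re - t₁ * m.re) / (t₂ - t₁) / r = 0 := by rw [sub_self, zero_div, zero_div]
    rw [e1, e2, map_zero]
    simp
  have hπ2 : ∀ m : ℂ, m.im = t₂ * m.re →
      π m = ((r * ((φ (m.re / r) : K) : ℝ) : ℝ) : ℂ) * sh t₂ y := by
    intro m hm
    rw [hπ, hm]
    have e1 : (t₂ * m.re - t₂ * m.re) / (t₂ - t₁) = 0 := by rw [sub_self, zero_div]
    have e2 : (t₂ * m.re - t₁ * m.re) / (t₂ - t₁) / r = m.re / r := by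
      congr 1
      field_simp
    rw [e1, e2, map_zero]
    simp
  have hπk : ∀ k ∈ W, k ≠ t₁ → k ≠ t₂ → ∀ m : ℂ, m.im = k * m.re →
      π m = (((φ ((t₂ * m.re - m.im) / (t₂ - t₁)) : K) : ℝ) : ℂ) *
        (y - (((k - t₁) / (k - t₂) : ℝ) : ℂ) * sh t₂ y) := by
    intro k hk hk1 hk2 m hm
    have hk1' : k - t₁ ≠ 0 := sub_ne_zero.2 hk1
    have hk2' : k - t₂ ≠ 0 := sub_ne_zero.2 hk2
    have hq : lam t₁ t₂ k t₃ ∈ F := Algebra.subset_adjoin
      ⟨k, hk, t₃, h3, hk1, hk2, h13.symm, h23.symm, rfl⟩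
    have hlam : lam t₁ t₂ k t₃ * r = (k - t₁) / (k - t₂) := by
      rw [hr]
      unfold lam
      exact div_mul_cancel₀ _ (div_ne_zero h31 h32)
    have e2 : (m.im - t₁ * m.re) / (t₂ - t₁) / r =
        lam t₁ t₂ k t₃ * (-((t₂ * m.re - m.im) / (t₂ - t₁))) := by
      have e3 : (m.im - t₁ * m.re) / (t₂ - t₁) =
          (k - t₁) / (k - t₂) * (-((t₂ * m.re - m.im) / (t₂ - t₁))) := by
        rw [hm]
        field_simp
        ring
      rw [e3, ← hlam]
      field_simp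
    rw [hπ, e2, hφK _ hq, map_neg]
    have e4 : (r * (lam t₁ t₂ k t₃ *
        ((-(φ ((t₂ * m.re - m.im) / (t₂ - t₁))) : K) : ℝ)) : ℝ) =
        -((k - t₁) / (k - t₂) * ((φ ((t₂ * m.re - m.im) / (t₂ - t₁)) : K) : ℝ)) := by
      rw [← hlam]
      push_cast
      ring
    rw [e4]
    push_cast
    ring
  have hyre : y.re ≠ 0 := by
    intro h
    rw [h, map_zero] at hφb
    exact zero_ne_one hφb
  have hy0 : y ≠ 0 := fun h => hyre (by rw [h]; rfl)
  have hshre : (sh t₂ y).re = y.re := rfl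
  have hshim : (sh t₂ y).im = t₂ * (sh t₂ y).re := rfl
  refine ⟨π, ?_, ?_, ?_⟩
  · intro t ht m hm
    have hm' : m.im = t * m.re := hm.2
    by_cases ht1 : t = t₁
    · subst ht1
      rw [hπ1 m hm', Complex.re_ofReal_mul, Complex.im_ofReal_mul, hy.2]
      ring
    by_cases ht2 : t = t₂
    · subst ht2
      rw [hπ2 m hm', Complex.re_ofReal_mul, Complex.im_ofReal_mul, hshim]
      ring
    · have h4 := ((hGrf M W t₁ t₂ t hTwo h1 h2 ht h12 ht1 ht2).1 y hy).2
      rw [hπk t ht ht1 ht2 m hm', Complex.re_ofReal_mul, Complex.im_ofReal_mul, mem_sl.1 h4]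
      ring
  · rw [hπ1 x hx.2, hφa]
    simp
  · intro t ht
    by_cases ht1 : t = t₁
    · subst ht1
      refine ⟨y, hy, ?_⟩
      rw [hπ1 y hy.2, hφb]
      simpa using hy0
    by_cases ht2 : t = t₂
    · subst ht2
      have h4 := ((hGrf M W t₁ t t₃ hTwo h1 h2 h3 h12 h13.symm h23.symm).1 y hy).1
      rw [← hr] at h4
      have h5 : ((r : ℂ) * sh t y).im = t * ((r : ℂ) * sh t y).re := by
        rw [Complex.re_ofReal_mul, Complex.im_ofReal_mul, hshim]
        ring
      refine ⟨(r : ℂ) * sh t y, ⟨h4, h5⟩, ?_⟩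
      rw [hπ2 _ h5, Complex.re_ofReal_mul, hshre, mul_div_cancel_left₀ _ hr0, hφb]
      intro h6
      have h7 := congrArg Complex.re h6
      rw [Complex.re_ofReal_mul, hshre, Complex.zero_re] at h7
      simp at h7
      rcases h7 with h7 | h7
      · exact hr0 h7
      · exact hyre h7
    · obtain ⟨h4, h5⟩ := (hGrf M W t₁ t₂ t hTwo h1 h2 ht h12 ht1 ht2).1 y hy
      refine ⟨y - (((t - t₁) / (t - t₂) : ℝ) : ℂ) * sh t₂ y,
        ⟨M.sub_mem hy.1 h4, h5⟩, ?_⟩
      rw [hπk t ht ht1 ht2 _ (mem_sl.1 h5)]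
      have e5 : (t₂ * (y - (((t - t₁) / (t - t₂) : ℝ) : ℂ) * sh t₂ y).re -
          (y - (((t - t₁) / (t - t₂) : ℝ) : ℂ) * sh t₂ y).im) / (t₂ - t₁) = y.re := by
        rw [Complex.sub_re, Complex.sub_im, Complex.re_ofReal_mul, Complex.im_ofReal_mul, hshim,
          hshre, hy.2]
        field_simp
        ring
      rw [e5, hφb]
      intro h6
      have h7 : y - (((t - t₁) / (t - t₂) : ℝ) : ℂ) * sh t₂ y = 0 := by simpa using h6
      have h8 := congrArg Complex.im h7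
      have h9 := congrArg Complex.re h7
      rw [Complex.sub_im, Complex.im_ofReal_mul, hshim, hshre, hy.2, Complex.zero_im] at h8
      rw [Complex.sub_re, Complex.re_ofReal_mul, hshre, Complex.zero_re] at h9
      have h10 : (t₂ - t₁) * y.re = 0 := by linear_combination t₂ * h9 - h8
      rcases mul_eq_zero.1 h10 with h11 | h11
      · exact h21 h11
      · exact hyre h11

end Pool.Agent.PLG.H67
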